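import Pool.Agent.Q107.DomTransfer

/-!
# The real domination roots of paths and of cycles are not dense in `[-2, 0]`
-/

set_option autoImplicit false

namespace Pool.Agent.Results.MP_130e73_co.NotDense

open SimpleGraph Finset Polynomial

/-- `S` is a dominating set of `G`. -/
def IsDominating {V : Type} (G : SimpleGraph V) (S : Finset V) : Prop :=
  ∀ v, v ∉ S → ∃ u ∈ S, G.Adj v u

/-- The domination polynomial `D(G, x) = ∑_{i=1}^{|V|} d(G, i) x^i`, where `d(G, i)` is the number
of dominating sets with exactly `i` elements. -/
noncomputable def domPoly {V : Type} [Fintype V] (G : SimpleGraph V) : ℝ[X] :=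
  ∑ i ∈ Finset.Icc 1 (Fintype.card V),
    C ({S : Finset V | IsDominating G S ∧ S.card = i}.ncard : ℝ) * X ^ i

/-- The real domination roots of the paths `P_n`, `n ≥ 4`. -/
def pathRoots : Set ℝ := {r | ∃ n, 4 ≤ n ∧ (domPoly (pathGraph n)).IsRoot r}

/-- The real domination roots of the cycles `C_n`, `n ≥ 4`. -/
def cycleRoots : Set ℝ := {r | ∃ n, 4 ≤ n ∧ (domPoly (cycleGraph n)).IsRoot r}

open Q107.DomTransfer

open Classical in
lemma eval_domPoly {V : Type} [Fintype V] [Nonempty V] (G : SimpleGraph V) (x : ℝ) :
    (domPoly G).eval x = ∑ S : Finset V, if IsDominating G S then x ^ S.card else 0 := by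
  unfold domPoly
  rw [Polynomial.eval_finsetSum]
  have h1 : ∀ i, (C ({S : Finset V | IsDominating G S ∧ S.card = i}.ncard : ℝ) * X ^ i).eval x =
      ∑ S ∈ univ.filter (fun S : Finset V => S.card = i),
        if IsDominating G S then x ^ S.card else 0 := by
    intro i
    rw [Polynomial.eval_mul, Polynomial.eval_C, Polynomial.eval_pow, Polynomial.eval_X]
    rw [← Finset.sum_filter, Finset.filter_filter]
    have h2 : {S : Finset V | IsDominating G S ∧ S.card = i} =
        ((univ.filter fun S : Finset V => S.card = i ∧ IsDominating G S : Finset (Finset V)) :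
          Set (Finset V)) := by
      ext S
      simp [and_comm]
    rw [h2, Set.ncard_coe_finset, Finset.sum_congr rfl (g := fun _ => x ^ i)]
    · rw [Finset.sum_const, nsmul_eq_mul]
    · intro S hS
      rw [(Finset.mem_filter.1 hS).2.1]
  simp only [h1]
  rw [← Finset.sum_fiberwise_of_maps_to (s := univ) (t := Finset.range (Fintype.card V + 1))
    (g := fun S : Finset V => S.card) (fun S _ => by
      rw [Finset.mem_range]
      exact Nat.lt_succ_of_le (Finset.card_le_univ S))]
  rw [Finset.sum_range_succ']
  have h0 : ∑ S ∈ univ.filter (fun S : Finset V => S.card = 0),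
      (if IsDominating G S then x ^ S.card else 0) = 0 := by
    apply Finset.sum_eq_zero
    intro S hS
    have : S = ∅ := Finset.card_eq_zero.1 (Finset.mem_filter.1 hS).2
    rw [if_neg]
    intro hd
    obtain ⟨v⟩ := ‹Nonempty V›
    obtain ⟨u, hu, _⟩ := hd v (by simp [this])
    simp [this] at hu
  rw [h0, add_zero]
  rw [Finset.range_eq_Ico, Finset.sum_Ico_add' (fun i => ∑ S ∈ univ.filter
    (fun S : Finset V => S.card = i), if IsDominating G S then x ^ S.card else 0)]
  apply Finset.sum_congr _ (fun _ _ => rfl)
  ext i
  simp only [Finset.mem_Icc, Finset.mem_Ico]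
  omega

/-- the set of a word -/
def supp {n : ℕ} (s : Fin n → Bool) : Finset (Fin n) := univ.filter fun i => s i = true

open Classical in
lemma sum_words {n : ℕ} (G : SimpleGraph (Fin n)) (x : ℝ) :
    (∑ S : Finset (Fin n), if IsDominating G S then x ^ S.card else 0) =
      ∑ s : Fin n → Bool, if IsDominating G (supp s) then ∏ i, wt x (s i) else 0 := by
  symm
  refine Finset.sum_bij' (fun s _ => supp s) (fun S _ => fun i => decide (i ∈ S)) ?_ ?_ ?_ ?_ ?_
  · intro s _; exact Finset.mem_univ _
  · intro S _; exact Finset.mem_univ _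
  · intro s _
    funext i
    simp [supp]
  · intro S _
    ext i
    simp [supp]
  · intro s _
    congr 1
    rw [supp, ← Finset.prod_const, Finset.prod_filter]
    rfl

/-- the domination condition for a path -/
lemma path_iff {n : ℕ} (s : Fin n → Bool) :
    IsDominating (pathGraph n) (supp s) ↔ ok3 (true :: false :: (List.ofFn s ++ [false])) = true := by
  have hval : ∀ i : ℕ, (List.ofFn s ++ [false]).getD i true =
      if h : i < n then s ⟨i, h⟩ else if i = n then false else true := by
    intro i
    split_ifs with h1 h2
    · rw [List.getD_append _ _ _ _ (by simpa using h1), List.getD_eq_getElem _ _ (by simpa using h1)]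
      simp
    · rw [List.getD_append_right _ _ _ _ (by simpa using h2.ge)]
      simp [h2]
    · rw [List.getD_append_right _ _ _ _ (by simp; omega)]
      rw [List.getD_eq_default]
      simp
      omega
  rw [ok3_iff]
  constructor
  · intro hd i
    match i with
    | 0 => left; rfl
    | 1 =>
      right
      simp only [List.getD_cons_succ, hval]
      by_cases hn : 0 < n
      · rw [dif_pos hn]
        by_cases h0 : s ⟨0, hn⟩ = true
        · left; exact h0
        · right
          obtain ⟨u, hu, hadj⟩ := hd ⟨0, hn⟩ (by simpa [supp] using h0)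
          rw [pathGraph_adj] at hadj
          simp only at hadj
          have hu1 : u.val = 1 := by omega
          rw [dif_pos (by rw [← hu1]; exact u.2)]
          have : (⟨1, by rw [← hu1]; exact u.2⟩ : Fin n) = u := Fin.ext hu1.symm
          rw [this]
          simpa [supp] using hu
      · right
        rw [dif_neg (by omega), if_neg (by omega)]
    | j + 2 =>
      simp only [List.getD_cons_succ, hval]
      by_cases hj : j + 1 < n
      · rw [dif_pos (by omega : j < n), dif_pos hj]
        by_cases h0 : s ⟨j + 1, hj⟩ = true
        · right; left; exact h0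
        · obtain ⟨u, hu, hadj⟩ := hd ⟨j + 1, hj⟩ (by simpa [supp] using h0)
          rw [pathGraph_adj] at hadj
          simp only at hadj
          rcases hadj with hadj | hadj
          · right; right
            have hu1 : u.val = j + 2 := by omega
            rw [dif_pos (by rw [← hu1]; exact u.2)]
            have : (⟨j + 2, by rw [← hu1]; exact u.2⟩ : Fin n) = u := Fin.ext hu1.symm
            rw [this]
            simpa [supp] using hu
          · left
            have hu1 : u.val = j := by omega
            have : (⟨j, by omega⟩ : Fin n) = u := Fin.ext hu1.symm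
            rw [this]
            simpa [supp] using hu
      · right; right
        rw [dif_neg (by omega), if_neg (by omega)]
  · intro h v hv
    have hv' : s v = false := by simpa [supp] using hv
    obtain ⟨i, hi⟩ := v
    have h1 := h (i + 1)
    simp only [List.getD_cons_succ, hval] at h1
    rw [dif_pos hi, hv'] at h1
    have h2 : (false :: (List.ofFn s ++ [false])).getD i true = true ∨
        (if h : i + 1 < n then s ⟨i + 1, h⟩ else if i + 1 = n then false else true) = true := by
      rcases h1 with h1 | h1 | h1
      · left; exact h1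
      · simp at h1
      · right; exact h1
    rcases h2 with h2 | h2
    · cases i with
      | zero => simp at h2
      | succ i =>
        rw [List.getD_cons_succ, hval, dif_pos (by omega)] at h2
        refine ⟨⟨i, by omega⟩, by simpa [supp] using h2, ?_⟩
        rw [pathGraph_adj]
        simp
    · split_ifs at h2 with h3 h4
      · refine ⟨⟨i + 1, h3⟩, by simpa [supp] using h2, ?_⟩
        rw [pathGraph_adj]
        simp
      · omega

lemma path_eval {n : ℕ} (hn : 0 < n) (x : ℝ) :
    (domPoly (pathGraph n)).eval x = W [false] n true false x := by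
  classical
  have : Nonempty (Fin n) := ⟨⟨0, hn⟩⟩
  rw [eval_domPoly, sum_words]
  unfold W
  apply Finset.sum_congr rfl
  intro s _
  simp only [path_iff]

/-- the domination condition for a cycle -/
lemma cycle_iff {m : ℕ} (hm : 1 ≤ m) (u v : Bool) (t : Fin m → Bool) :
    IsDominating (cycleGraph (m + 2)) (supp (Fin.cons u (Fin.cons v t) : Fin (m + 2) → Bool)) ↔
      ok3 (u :: v :: (List.ofFn t ++ [u, v])) = true := by
  set s : Fin (m + 2) → Bool := Fin.cons u (Fin.cons v t) with hs
  have hL : u :: v :: (List.ofFn t ++ [u, v]) = List.ofFn s ++ [u, v] := by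
    rw [hs, ofFn_cons', ofFn_cons']
    rfl
  have hs0 : s 0 = u := rfl
  have hs1 : s 1 = v := rfl
  have hval : ∀ i : ℕ, i < m + 4 → (List.ofFn s ++ [u, v]).getD i true =
      s ⟨i % (m + 2), Nat.mod_lt _ (by omega)⟩ := by
    intro i hi
    by_cases h1 : i < m + 2
    · have h1' : i < (List.ofFn s).length := by rw [List.length_ofFn]; exact h1
      rw [List.getD_append _ _ _ _ h1', List.getD_eq_getElem _ _ h1']
      simp only [List.getElem_ofFn, Nat.mod_eq_of_lt h1]
    · rw [List.getD_append_right _ _ _ _ (by simp; omega), List.length_ofFn]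
      have h2 : i = m + 2 ∨ i = m + 3 := by omega
      rcases h2 with h2 | h2
      · subst h2
        rw [← hs0]
        simp only [Nat.sub_self, List.getD_cons_zero]
        congr 1
        apply Fin.ext
        simp
      · subst h2
        rw [show m + 3 - (m + 2) = 1 by omega, ← hs1]
        simp only [List.getD_cons_succ, List.getD_cons_zero]
        congr 1
        apply Fin.ext
        simp only [Fin.val_one]
        rw [show m + 3 = 1 + (m + 2) by ring, Nat.add_mod_right, Nat.mod_eq_of_lt (by omega)]
  have hbig : ∀ i : ℕ, m + 4 ≤ i → (List.ofFn s ++ [u, v]).getD i true = true := by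
    intro i hi
    rw [List.getD_eq_default]
    simp
    omega
  have hsucc : ∀ i : ℕ, (⟨(i + 1) % (m + 2), Nat.mod_lt _ (by omega)⟩ : Fin (m + 2)) =
      ⟨i % (m + 2), Nat.mod_lt _ (by omega)⟩ + 1 := by
    intro i
    apply Fin.ext
    rw [Fin.val_add]
    simp [Nat.add_mod]
  rw [hL, ok3_iff]
  have hdom : IsDominating (cycleGraph (m + 2)) (supp s) ↔
      ∀ w : Fin (m + 2), s w = true ∨ s (w + 1) = true ∨ s (w + 1 + 1) = true := by
    unfold IsDominating
    constructor
    · intro h w
      by_contra hcon
      push Not at hcon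
      obtain ⟨h1, h2, h3⟩ := hcon
      obtain ⟨z, hz, hadj⟩ := h (w + 1) (by simpa [supp] using h2)
      rw [cycleGraph_adj] at hadj
      have hz' : s z = true := by simpa [supp] using hz
      rcases hadj with hadj | hadj
      · have : z = w := by
          have := sub_eq_iff_eq_add.1 hadj
          have h4 : w + 1 = z + 1 := by rw [this]; abel
          exact (add_right_cancel h4).symm
        exact h1 (this ▸ hz')
      · have : z = w + 1 + 1 := by
          have := sub_eq_iff_eq_add.1 hadj
          rw [this]; abel
        exact h3 (this ▸ hz')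
    · intro h w hw
      have hw' : s w ≠ true := by simpa [supp] using hw
      have h1 := h (w - 1)
      rw [sub_add_cancel] at h1
      rcases h1 with h1 | h1 | h1
      · exact ⟨w - 1, by simpa [supp] using h1, by rw [cycleGraph_adj]; left; abel⟩
      · exact absurd h1 hw'
      · exact ⟨w + 1, by simpa [supp] using h1, by rw [cycleGraph_adj]; right; abel⟩
  rw [hdom]
  constructor
  · intro h i
    by_cases hi : i + 2 < m + 4
    · rw [hval i (by omega), hval (i + 1) (by omega), hval (i + 2) hi, hsucc (i + 1), hsucc i]
      exact h _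
    · right; right
      exact hbig _ (by omega)
  · intro h w
    have h1 := h w.val
    rw [hval w.val (by omega), hval (w.val + 1) (by omega), hval (w.val + 2) (by omega),
      hsucc (w.val + 1), hsucc w.val] at h1
    have h2 : (⟨w.val % (m + 2), Nat.mod_lt _ (by omega)⟩ : Fin (m + 2)) = w :=
      Fin.ext (Nat.mod_eq_of_lt w.2)
    rw [h2] at h1
    exact h1

lemma cycle_eval {m : ℕ} (hm : 1 ≤ m) (x : ℝ) :
    (domPoly (cycleGraph (m + 2))).eval x = Cy m x := by
  classical
  rw [eval_domPoly, sum_words, sum_cons]
  unfold Cy
  apply Finset.sum_congr rfl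
  intro u _
  rw [sum_cons]
  apply Finset.sum_congr rfl
  intro v _
  unfold W
  rw [Finset.mul_sum]
  apply Finset.sum_congr rfl
  intro t _
  simp only [cycle_iff hm]
  rw [Fin.prod_univ_succ, Fin.prod_univ_succ]
  simp only [Fin.cons_zero, Fin.cons_succ]
  split_ifs
  · ring
  · ring

/-- There is a nondegenerate interval `[a, b] ⊆ [-2, 0]` that contains no real domination root of
any path `P_n` with `n ≥ 4` and of any cycle `C_n` with `n ≥ 4`. -/
theorem result : ∃ a b : ℝ, -2 ≤ a ∧ a < b ∧ b ≤ 0 ∧
    Disjoint (Set.Icc a b) pathRoots ∧ Disjoint (Set.Icc a b) cycleRoots := by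
  have h := gap_path.and gap_cycle
  rw [Metric.eventually_nhds_iff] at h
  obtain ⟨ε, hε, h⟩ := h
  have key : ∀ x ∈ Set.Icc (-1.9 - min (ε / 2) 0.1) (-1.9 : ℝ),
      (∀ n, 4 ≤ n → W [false] n true false x ≠ 0) ∧ ∀ m, 2 ≤ m → Cy m x ≠ 0 := by
    intro x hx
    apply h
    rw [Real.dist_eq, abs_lt]
    have h1 := min_le_left (ε / 2) (0.1 : ℝ)
    constructor
    · linarith [hx.1]
    · linarith [hx.2]
  have hpos : 0 < min (ε / 2) (0.1 : ℝ) := lt_min (by linarith) (by norm_num)
  refine ⟨-1.9 - min (ε / 2) 0.1, -1.9, ?_, by linarith, by norm_num, ?_, ?_⟩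
  · have := min_le_right (ε / 2) (0.1 : ℝ)
    linarith
  · rw [Set.disjoint_left]
    rintro x hx ⟨n, hn, hr⟩
    rw [Polynomial.IsRoot, path_eval (by omega)] at hr
    exact (key x hx).1 n hn hr
  · rw [Set.disjoint_left]
    rintro x hx ⟨n, hn, hr⟩
    obtain ⟨m, rfl⟩ := Nat.exists_eq_add_of_le' (show 2 ≤ n by omega)
    rw [Polynomial.IsRoot, cycle_eval (by omega)] at hr
    exact (key x hx).2 m (by omega) hr

end Pool.Agent.Results.MP_130e73_co.NotDense
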